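import Pool.Agent.Y57.RCA.Final

/-!
# MP_b4b244_al, Q1: the Poincaré series of `L_c(λ)` need not be palindromic for generic `c`

`W = G(5,5,4)` has an irreducible module `λ` of dimension `12` such that, for every parameter
`c ≠ 0`, the Poincaré series of `L_c(λ)` is `12 + 36 q + 36 q^2 + 24 q^3 + 12 q^4`.
(All reflections of `W` have order two and they form one conjugacy class.)
-/

namespace Pool.Agent.Results.MP_b4b244_al.NotPalindromic

open Pool.Agent.Y57.RCA

theorem result :
    ∃ (V : Type) (_ : AddCommGroup V) (_ : Module ℂ V) (W : Subgroup (V ≃ₗ[ℂ] V))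
      (U : Type) (_ : AddCommGroup U) (_ : Module ℂ U) (ρ : Representation ℂ W U),
      IsG554 W ∧ IsReflectionGroup W ∧ IsCounterexample W ρ coeffs :=
  ⟨E4, inferInstance, inferInstance, G554, U0, inferInstance, inferInstance, lam, isG554,
    isReflectionGroup_G554, isCounterexample⟩

end Pool.Agent.Results.MP_b4b244_al.NotPalindromic
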